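import Mathlib

namespace Pool.Agent.Results.MP_6f9e99_co.Main

open Submodule Module

variable {K : Type} [Field K] {r k : ℕ} {S : Finset (Fin r → K)}

/-- the union of two hyperplanes: one of the two affine parts is full -/
theorem full_or (hblock : ∀ f : (Fin r → K) →ₗ[K] (Fin k → K), ∃ s ∈ S, f s = 0)
    {α β : (Fin r → K) →ₗ[K] K} (hcov : ∀ s ∈ S, α s = 0 ∨ β s = 0)
    (f : (Fin r → K) →ₗ[K] (Fin k → K)) (hW : ∀ s ∈ S, α s = 0 → β s = 0 → f s ≠ 0) :
    (∀ y : Fin k → K, ∃ s ∈ S, α s ≠ 0 ∧ f s = α s • y) ∨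
      (∀ y : Fin k → K, ∃ s ∈ S, β s ≠ 0 ∧ f s = β s • y) := by
  by_contra hcon
  push Not at hcon
  obtain ⟨⟨y, hy⟩, ⟨z, hz⟩⟩ := hcon
  obtain ⟨s, hs, hs0⟩ := hblock (f - α.smulRight y - β.smulRight z)
  rw [LinearMap.sub_apply, LinearMap.sub_apply, LinearMap.smulRight_apply,
    LinearMap.smulRight_apply] at hs0
  by_cases ha : α s = 0
  · by_cases hb : β s = 0
    · rw [ha, hb, zero_smul, zero_smul, sub_zero, sub_zero] at hs0
      exact hW s hs ha hb hs0
    · rw [ha, zero_smul, sub_zero, sub_eq_zero] at hs0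
      exact hz s hs hb hs0
  · have hb : β s = 0 := (hcov s hs).resolve_left ha
    rw [hb, zero_smul, sub_zero, sub_eq_zero] at hs0
    exact hy s hs ha hs0

/-- a full affine part makes the restriction to the intersection of the hyperplanes surjective -/
theorem surj_of_full {α β : (Fin r → K) →ₗ[K] K} (hcov : ∀ s ∈ S, α s = 0 ∨ β s = 0)
    {f : (Fin r → K) →ₗ[K] (Fin k → K)}
    (hfull : ∀ y : Fin k → K, ∃ s ∈ S, α s ≠ 0 ∧ f s = α s • y) (y : Fin k → K) :
    ∃ u ∈ span K (S : Set (Fin r → K)), α u = 0 ∧ β u = 0 ∧ f u = y := by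
  obtain ⟨s, hs, hsa, hsf⟩ := hfull y
  obtain ⟨t, ht, hta, htf⟩ := hfull 0
  have hsb : β s = 0 := (hcov s hs).resolve_left hsa
  have htb : β t = 0 := (hcov t ht).resolve_left hta
  refine ⟨(α s)⁻¹ • s - (α t)⁻¹ • t, ?_, ?_, ?_, ?_⟩
  · exact Submodule.sub_mem _ (Submodule.smul_mem _ _ (subset_span hs))
      (Submodule.smul_mem _ _ (subset_span ht))
  · rw [map_sub, map_smul, map_smul, smul_eq_mul, smul_eq_mul, inv_mul_cancel₀ hsa,
      inv_mul_cancel₀ hta, sub_self]
  · rw [map_sub, map_smul, map_smul, hsb, htb, smul_zero, smul_zero, sub_zero]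
  · rw [map_sub, map_smul, map_smul, hsf, htf, smul_zero, smul_zero, sub_zero, smul_smul,
      inv_mul_cancel₀ hsa, one_smul]

/-- If the kernels of two functionals cover a tangential block, then the rank is at least `k + 4`
and the points off each kernel are few. -/
theorem cover_bound [Fintype K] [DecidableEq K]
    (hsimple : ∀ s ∈ S, ∀ t ∈ S, ∀ c : K, s = c • t → s = t)
    (hblock : ∀ f : (Fin r → K) →ₗ[K] (Fin k → K), ∃ s ∈ S, f s = 0)
    (htang : ∀ F : Finset (Fin r → K), F ⊆ S → F.Nonempty →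
      (∀ s ∈ S, s ∈ span K (F : Set (Fin r → K)) → s ∈ F) →
      ∃ f : (Fin r → K) →ₗ[K] (Fin k → K),
        (∀ x ∈ F, f x = 0) ∧ ∀ s ∈ S, s ∉ F → f s ≠ 0)
    {α β : (Fin r → K) →ₗ[K] K} (hcov : ∀ s ∈ S, α s = 0 ∨ β s = 0)
    {a b : Fin r → K} (ha : a ∈ S) (hb : b ∈ S) (haa : α a ≠ 0) (hbb : β b ≠ 0) :
    k + 4 ≤ finrank K (span K (S : Set (Fin r → K))) ∧
    (S.filter (fun s => α s ≠ 0)).card ≤ (Fintype.card K ^ k - 1) *
      Fintype.card K ^ (finrank K (span K (S : Set (Fin r → K))) - k - 3) := by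
  classical
  have hab : β a = 0 := (hcov a ha).resolve_left haa
  have hba : α b = 0 := (hcov b hb).resolve_right hbb
  set E := span K (S : Set (Fin r → K)) with hE
  set q := Fintype.card K with hq
  have hq2 : 2 ≤ q := Fintype.one_lt_card
  set U := (E ⊓ LinearMap.ker α) ⊓ LinearMap.ker β with hU
  have hUmem : ∀ u, u ∈ U ↔ u ∈ E ∧ α u = 0 ∧ β u = 0 := by
    intro u
    rw [hU, Submodule.mem_inf, Submodule.mem_inf, LinearMap.mem_ker, LinearMap.mem_ker]
    tauto
  have hUrank : finrank K U + 2 ≤ finrank K E := by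
    have h1 : E ⊓ LinearMap.ker α < E := by
      refine lt_of_le_of_ne inf_le_left fun heq => ?_
      have h3 : a ∈ E := subset_span ha
      rw [← heq] at h3
      exact haa h3.2
    have h2 : U < E ⊓ LinearMap.ker α := by
      refine lt_of_le_of_ne inf_le_left fun heq => ?_
      have h3 : b ∈ E ⊓ LinearMap.ker α := ⟨subset_span hb, hba⟩
      rw [← heq] at h3
      exact hbb h3.2
    have h3 := Submodule.finrank_lt_finrank_of_lt h1
    have h4 := Submodule.finrank_lt_finrank_of_lt h2
    omega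
  have hsurj : ∀ f : (Fin r → K) →ₗ[K] (Fin k → K),
      (∀ s ∈ S, α s = 0 → β s = 0 → f s ≠ 0) → ∀ y : Fin k → K, ∃ u ∈ U, f u = y := by
    intro f hf y
    rcases full_or hblock hcov f hf with h | h
    · obtain ⟨u, hu1, hu2, hu3, hu4⟩ := surj_of_full hcov h y
      exact ⟨u, (hUmem u).2 ⟨hu1, hu2, hu3⟩, hu4⟩
    · obtain ⟨u, hu1, hu2, hu3, hu4⟩ := surj_of_full (fun s hs => (hcov s hs).symm) h y
      exact ⟨u, (hUmem u).2 ⟨hu1, hu3, hu2⟩, hu4⟩
  -- points are flats
  have hpt : ∀ p ∈ S, ∃ f : (Fin r → K) →ₗ[K] (Fin k → K), f p = 0 ∧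
      ∀ s ∈ S, s ≠ p → f s ≠ 0 := by
    intro p hp
    obtain ⟨f, hf1, hf2⟩ := htang {p} (Finset.singleton_subset_iff.2 hp)
      (Finset.singleton_nonempty p) (by
        intro s hs hsp
        rw [Finset.coe_singleton, mem_span_singleton] at hsp
        obtain ⟨c, hc⟩ := hsp
        rw [Finset.mem_singleton]
        exact hsimple s hs p hp c hc.symm)
    refine ⟨f, hf1 p (Finset.mem_singleton_self p), fun s hs hsp => hf2 s hs ?_⟩
    rw [Finset.mem_singleton]
    exact hsp
  -- the first cocircuit has at least `q ^ k` elements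
  obtain ⟨f1, hf1a, hf1⟩ := hpt a ha
  have hf1W : ∀ s ∈ S, α s = 0 → β s = 0 → f1 s ≠ 0 := by
    intro s hs h1 h2
    apply hf1 s hs
    rintro rfl
    exact haa h1
  have hf1full : ∀ y : Fin k → K, ∃ s ∈ S, α s ≠ 0 ∧ f1 s = α s • y := by
    rcases full_or hblock hcov f1 hf1W with h | h
    · exact h
    · exfalso
      obtain ⟨s, hs, hsb, hs0⟩ := h 0
      rw [smul_zero] at hs0
      apply hf1 s hs _ hs0
      rintro rfl
      exact hsb hab
  have hlow : q ^ k ≤ (S.filter (fun s => α s ≠ 0)).card := by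
    choose σ hσS hσα hσf using hf1full
    have hσinj : Function.Injective σ := by
      intro y z hyz
      have h1 := hσf y
      have h2 := hσf z
      rw [← hyz, h1] at h2
      exact smul_right_injective _ (hσα y) h2
    have h1 : (Finset.univ.image σ).card = q ^ k := by
      rw [Finset.card_image_of_injective _ hσinj, Finset.card_univ, Fintype.card_fun,
        Fintype.card_fin]
    rw [← h1]
    apply Finset.card_le_card
    intro s hs
    obtain ⟨y, -, rfl⟩ := Finset.mem_image.1 hs
    exact Finset.mem_filter.2 ⟨hσS y, hσα y⟩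
  -- the map `f` exact at `b`
  obtain ⟨f, hfb, hf⟩ := hpt b hb
  have hfW : ∀ s ∈ S, α s = 0 → β s = 0 → f s ≠ 0 := by
    intro s hs h1 h2
    apply hf s hs
    rintro rfl
    exact hbb h2
  have hfA : ∀ s ∈ S, α s ≠ 0 → f s ≠ 0 := by
    intro s hs h1
    apply hf s hs
    rintro rfl
    exact h1 hba
  have hffull : ∀ y : Fin k → K, ∃ s ∈ S, β s ≠ 0 ∧ f s = β s • y := by
    rcases full_or hblock hcov f hfW with h | h
    · exfalso
      obtain ⟨s, hs, hsa, hs0⟩ := h 0
      rw [smul_zero] at hs0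
      exact hfA s hs hsa hs0
    · exact h
  set P := U ⊓ LinearMap.ker f with hP
  have hPrank : finrank K P + k ≤ finrank K U := by
    have hrange : LinearMap.range (f.domRestrict U) = ⊤ := by
      rw [LinearMap.range_eq_top]
      intro y
      obtain ⟨u, hu, hu'⟩ := hsurj f hfW y
      exact ⟨⟨u, hu⟩, hu'⟩
    have h1 := LinearMap.finrank_range_add_finrank_ker (f.domRestrict U)
    rw [hrange, finrank_top, Module.finrank_fin_fun] at h1
    have h2 : finrank K P = finrank K (LinearMap.ker (f.domRestrict U)) := by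
      have h3 : P = (LinearMap.ker (f.domRestrict U)).map U.subtype := by
        ext x
        constructor
        · rintro ⟨hx1, hx2⟩
          exact ⟨⟨x, hx1⟩, hx2, rfl⟩
        · rintro ⟨y, hy, rfl⟩
          exact ⟨y.2, hy⟩
      rw [h3]
      exact LinearEquiv.finrank_eq
        (Submodule.equivMapOfInjective U.subtype U.subtype_injective _).symm
    omega
  -- the fibres
  have hfib : ∀ y : Fin k → K,
      (S.filter (fun s => α s ≠ 0 ∧ f s = α s • y)).card ≤ q ^ (finrank K P - 1) := by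
    intro y
    set F := S.filter (fun s => α s ≠ 0 ∧ f s = α s • y) with hF
    rcases F.eq_empty_or_nonempty with hemp | hne
    · rw [hemp, Finset.card_empty]
      exact Nat.zero_le _
    have hFmem : ∀ x ∈ F, x ∈ S ∧ α x ≠ 0 ∧ f x = α x • y ∧ β x = 0 := by
      intro x hx
      obtain ⟨h1, h2, h3⟩ := Finset.mem_filter.1 hx
      exact ⟨h1, h2, h3, (hcov x h1).resolve_left h2⟩
    obtain ⟨g, hg0, hg⟩ := htang F (Finset.filter_subset _ _) hne (by
      intro x hx hxF
      have h1 : span K (F : Set (Fin r → K)) ≤ LinearMap.ker (f - α.smulRight y) := by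
        rw [span_le]
        intro w hw
        obtain ⟨-, -, h3, -⟩ := hFmem w (Finset.mem_coe.1 hw)
        rw [SetLike.mem_coe, LinearMap.mem_ker, LinearMap.sub_apply, LinearMap.smulRight_apply,
          h3, sub_self]
      have h2 : span K (F : Set (Fin r → K)) ≤ LinearMap.ker β := by
        rw [span_le]
        intro w hw
        exact (hFmem w (Finset.mem_coe.1 hw)).2.2.2
      have h3 := h1 hxF
      rw [LinearMap.mem_ker, LinearMap.sub_apply, LinearMap.smulRight_apply] at h3
      have h4 : β x = 0 := h2 hxF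
      refine Finset.mem_filter.2 ⟨hx, ?_, sub_eq_zero.1 h3⟩
      intro h5
      rw [h5, zero_smul, sub_zero] at h3
      exact hfW x hx h5 h4 h3)
    have hgW : ∀ x ∈ S, α x = 0 → β x = 0 → g x ≠ 0 := by
      intro x hx h1 _
      exact hg x hx (fun hxF => (hFmem x hxF).2.1 h1)
    have hgB : ∀ x ∈ S, β x ≠ 0 → g x ≠ 0 := by
      intro x hx h1
      exact hg x hx (fun hxF => h1 (hFmem x hxF).2.2.2)
    -- the kernels differ
    have hlt : P ⊓ LinearMap.ker g < P := by
      refine lt_of_le_of_ne inf_le_left fun heq => ?_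
      obtain ⟨u, huU, hgu⟩ := hsurj g hgW (-g ((β b)⁻¹ • b))
      obtain ⟨x, hxS, hxβ, hfx⟩ := hffull (f ((β b)⁻¹ • b + u))
      have hxα : α x = 0 := (hcov x hxS).resolve_right hxβ
      have huU' := (hUmem u).1 huU
      set w := (β x)⁻¹ • x - ((β b)⁻¹ • b + u) with hw
      have hwU : w ∈ U := by
        rw [hUmem]
        refine ⟨?_, ?_, ?_⟩
        · exact Submodule.sub_mem _ (Submodule.smul_mem _ _ (subset_span hxS))
            (Submodule.add_mem _ (Submodule.smul_mem _ _ (subset_span hb)) huU'.1)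
        · rw [hw, map_sub, map_add, map_smul, map_smul, hxα, hba, huU'.2.1, smul_zero,
            smul_zero, add_zero, sub_zero]
        · rw [hw, map_sub, map_add, map_smul, map_smul, huU'.2.2, smul_eq_mul, smul_eq_mul,
            inv_mul_cancel₀ hxβ, inv_mul_cancel₀ hbb, add_zero, sub_self]
      have hfw : f w = 0 := by
        rw [hw, map_sub, map_smul, hfx, smul_smul, inv_mul_cancel₀ hxβ, one_smul, sub_self]
      have hwP : w ∈ P := ⟨hwU, hfw⟩
      rw [← heq] at hwP
      have hgw : g w = 0 := hwP.2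
      rw [hw, map_sub, map_add, hgu, add_neg_cancel, sub_zero, map_smul] at hgw
      have h5 : g x = 0 := by
        rcases smul_eq_zero.1 hgw with h | h
        · exact absurd h (inv_ne_zero hxβ)
        · exact h
      exact hgB x hxS hxβ h5
    have hltr := Submodule.finrank_lt_finrank_of_lt hlt
    -- the fibre embeds in the smaller kernel
    obtain ⟨s0, hs0⟩ := hne
    have hs0' := hFmem s0 hs0
    have hmem : ∀ s ∈ F, (α s)⁻¹ • s - (α s0)⁻¹ • s0 ∈ P ⊓ LinearMap.ker g := by
      intro s hs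
      obtain ⟨h1, h2, h3, h4⟩ := hFmem s hs
      obtain ⟨e1, e2, e3, e4⟩ := hs0'
      refine ⟨⟨(hUmem _).2 ⟨?_, ?_, ?_⟩, ?_⟩, ?_⟩
      · exact Submodule.sub_mem _ (Submodule.smul_mem _ _ (subset_span h1))
          (Submodule.smul_mem _ _ (subset_span e1))
      · rw [map_sub, map_smul, map_smul, smul_eq_mul, smul_eq_mul, inv_mul_cancel₀ h2,
          inv_mul_cancel₀ e2, sub_self]
      · rw [map_sub, map_smul, map_smul, h4, e4, smul_zero, smul_zero, sub_zero]
      · rw [SetLike.mem_coe, LinearMap.mem_ker, map_sub, map_smul, map_smul, h3, e3, smul_smul,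
          smul_smul, inv_mul_cancel₀ h2, inv_mul_cancel₀ e2, sub_self]
      · rw [SetLike.mem_coe, LinearMap.mem_ker, map_sub, map_smul, map_smul, hg0 s hs,
          hg0 s0 hs0, smul_zero, smul_zero, sub_zero]
    let ι : F → (P ⊓ LinearMap.ker g : Submodule K (Fin r → K)) := fun s =>
      ⟨(α s)⁻¹ • (s : Fin r → K) - (α s0)⁻¹ • s0, hmem s s.2⟩
    have hι : Function.Injective ι := by
      intro s t hst
      have h1 : (α s)⁻¹ • (s : Fin r → K) - (α s0)⁻¹ • s0 =
          (α t)⁻¹ • (t : Fin r → K) - (α s0)⁻¹ • s0 := congrArg Subtype.val hst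
      have h2 : (α s)⁻¹ • (s : Fin r → K) = (α t)⁻¹ • (t : Fin r → K) := sub_left_injective h1
      obtain ⟨e1, e2, -, -⟩ := hFmem s s.2
      obtain ⟨e1', e2', -, -⟩ := hFmem t t.2
      apply Subtype.ext
      apply hsimple s e1 t e1' (α s * (α t)⁻¹)
      have h3 : (s : Fin r → K) = α s • ((α s)⁻¹ • (s : Fin r → K)) := by
        rw [smul_smul, mul_inv_cancel₀ e2, one_smul]
      rw [h2, smul_smul] at h3
      exact h3
    have h6 := Nat.card_le_card_of_injective ι hι
    have h7 : Nat.card F = F.card := by rw [Nat.card_eq_fintype_card, Fintype.card_coe]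
    have h8 : Nat.card (P ⊓ LinearMap.ker g : Submodule K (Fin r → K)) =
        q ^ finrank K (P ⊓ LinearMap.ker g : Submodule K (Fin r → K)) := by
      rw [Module.natCard_eq_pow_finrank (K := K), Nat.card_eq_fintype_card (α := K)]
    rw [h7, h8] at h6
    exact h6.trans (Nat.pow_le_pow_right (by omega) (by omega))
  -- the union of the fibres
  have hup : (S.filter (fun s => α s ≠ 0)).card ≤ (q ^ k - 1) * q ^ (finrank K P - 1) := by
    have h1 : S.filter (fun s => α s ≠ 0) ⊆ (Finset.univ.erase (0 : Fin k → K)).biUnion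
        (fun y => S.filter (fun s => α s ≠ 0 ∧ f s = α s • y)) := by
      intro s hs
      obtain ⟨hsS, hsα⟩ := Finset.mem_filter.1 hs
      refine Finset.mem_biUnion.2 ⟨(α s)⁻¹ • f s, ?_, ?_⟩
      · exact Finset.mem_erase.2 ⟨smul_ne_zero (inv_ne_zero hsα) (hfA s hsS hsα),
          Finset.mem_univ _⟩
      · refine Finset.mem_filter.2 ⟨hsS, hsα, ?_⟩
        rw [smul_smul, mul_inv_cancel₀ hsα, one_smul]
    refine (Finset.card_le_card h1).trans ?_
    refine (Finset.card_biUnion_le_card_mul _ _ (q ^ (finrank K P - 1))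
      (fun y _ => hfib y)).trans ?_
    rw [Finset.card_erase_of_mem (Finset.mem_univ _), Finset.card_univ, Fintype.card_fun,
      Fintype.card_fin]
  have hqk : 0 < q ^ k := Nat.pow_pos (by omega)
  have hP2 : 2 ≤ finrank K P := by
    by_contra hlt
    have h1 : finrank K P - 1 = 0 := by omega
    rw [h1, pow_zero, mul_one] at hup
    omega
  refine ⟨by omega, hup.trans ?_⟩
  apply Nat.mul_le_mul_left
  exact Nat.pow_le_pow_right (by omega) (by omega)

/-- if a set and its complement are both nonspanning, then the rank is at least `k + 4` and the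
complement is small -/
theorem nonspanning [Fintype K]
    (hsimple : ∀ s ∈ S, ∀ t ∈ S, ∀ c : K, s = c • t → s = t)
    (hblock : ∀ f : (Fin r → K) →ₗ[K] (Fin k → K), ∃ s ∈ S, f s = 0)
    (htang : ∀ F : Finset (Fin r → K), F ⊆ S → F.Nonempty →
      (∀ s ∈ S, s ∈ span K (F : Set (Fin r → K)) → s ∈ F) →
      ∃ f : (Fin r → K) →ₗ[K] (Fin k → K),
        (∀ x ∈ F, f x = 0) ∧ ∀ s ∈ S, s ∉ F → f s ≠ 0)
    (X : Finset (Fin r → K)) (hXS : X ⊆ S)
    (hflat : ∀ s ∈ S, s ∈ span K (X : Set (Fin r → K)) → s ∈ X)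
    (hX : finrank K (span K (X : Set (Fin r → K))) + 1 =
      finrank K (span K (S : Set (Fin r → K))))
    (hcon : span K ((S : Set (Fin r → K)) \ (X : Set (Fin r → K))) ≠
      span K (S : Set (Fin r → K))) :
    k + 4 ≤ finrank K (span K (S : Set (Fin r → K))) ∧
    ((S : Set (Fin r → K)) \ (X : Set (Fin r → K))).ncard ≤ (Fintype.card K ^ k - 1) *
      Fintype.card K ^ (finrank K (span K (S : Set (Fin r → K))) - k - 3) := by
  classical
  have hXne : span K (X : Set (Fin r → K)) ≠ span K (S : Set (Fin r → K)) := by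
    intro h
    rw [h] at hX
    omega
  have hsep : ∀ T : Set (Fin r → K), T ⊆ S → span K T ≠ span K (S : Set (Fin r → K)) →
      ∃ s ∈ S, s ∉ span K T := by
    intro T hT hne
    by_contra h2
    push Not at h2
    apply hne
    apply le_antisymm (span_mono hT)
    rw [span_le]
    intro s hs
    exact h2 s hs
  obtain ⟨a, ha, haX⟩ := hsep X (by exact_mod_cast hXS) hXne
  obtain ⟨b, hb, hbY⟩ := hsep _ Set.sdiff_subset hcon
  obtain ⟨β, hβ1, hβ2⟩ := Submodule.exists_le_ker_of_notMem hbY
  obtain ⟨α, hα1, hα2⟩ := Submodule.exists_le_ker_of_notMem haX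
  have hα : ∀ x ∈ X, α x = 0 := fun x hx => hα2 (subset_span hx)
  -- off `X` the functional `α` does not vanish
  have hα' : ∀ x ∈ S, x ∉ X → α x ≠ 0 := by
    intro x hx hxX h0
    apply hxX
    apply hflat x hx
    have h1 : span K (X : Set (Fin r → K)) ≤ span K (S : Set (Fin r → K)) ⊓ LinearMap.ker α :=
      le_inf (span_mono (by exact_mod_cast hXS)) hα2
    have h2 : span K (S : Set (Fin r → K)) ⊓ LinearMap.ker α < span K (S : Set (Fin r → K)) := by
      refine lt_of_le_of_ne inf_le_left fun heq => ?_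
      have h3 : a ∈ span K (S : Set (Fin r → K)) := subset_span ha
      rw [← heq] at h3
      exact hα1 h3.2
    have h3 := Submodule.finrank_lt_finrank_of_lt h2
    have h4 : span K (X : Set (Fin r → K)) =
        span K (S : Set (Fin r → K)) ⊓ LinearMap.ker α :=
      Submodule.eq_of_le_of_finrank_le h1 (by omega)
    rw [h4]
    exact ⟨subset_span hx, h0⟩
  have hcov : ∀ s ∈ S, α s = 0 ∨ β s = 0 := by
    intro s hs
    by_cases hsX : s ∈ X
    · exact Or.inl (hα s hsX)
    · exact Or.inr (hβ2 (subset_span ⟨hs, hsX⟩))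
  obtain ⟨h1, h2⟩ := cover_bound hsimple hblock htang hcov ha hb hα1 hβ1
  refine ⟨h1, ?_⟩
  have h3 : (S : Set (Fin r → K)) \ (X : Set (Fin r → K)) =
      (S.filter (fun s => α s ≠ 0) : Finset (Fin r → K)) := by
    ext x
    rw [Finset.mem_coe, Finset.mem_filter]
    constructor
    · rintro ⟨hx1, hx2⟩
      exact ⟨hx1, hα' x hx1 hx2⟩
    · rintro ⟨hx1, hx2⟩
      exact ⟨hx1, fun hx3 => hx2 (hα x hx3)⟩
  rw [h3, Set.ncard_coe_finset]
  exact h2

/-- `X` is a copoint of the geometry on `S` -/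
def IsCopoint (S X : Finset (Fin r → K)) : Prop :=
  X ⊆ S ∧ (∀ s ∈ S, s ∈ span K (X : Set (Fin r → K)) → s ∈ X) ∧
    finrank K (span K (X : Set (Fin r → K))) + 1 = finrank K (span K (S : Set (Fin r → K)))

/-- some copoint has a complement with at least `|S| / rank` points -/
theorem exists_big_copoint (hzero : (0 : Fin r → K) ∉ S) (hne : S.Nonempty) :
    ∃ X, IsCopoint S X ∧ S.card ≤ finrank K (span K (S : Set (Fin r → K))) *
      ((S : Set (Fin r → K)) \ (X : Set (Fin r → K))).ncard := by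
  classical
  obtain ⟨T0, hTS0, hTspan0, hTli0⟩ := exists_linearIndependent K (S : Set (Fin r → K))
  have hTfin : T0.Finite := S.finite_toSet.subset hTS0
  obtain ⟨T, rfl⟩ := hTfin.exists_finset_coe
  have hcardT : finrank K (span K (S : Set (Fin r → K))) = T.card := by
    rw [← hTspan0]
    exact finrank_span_finset_eq_card hTli0
  -- functionals dual to the basis
  have hdual : ∀ t ∈ T, t ∉ span K ((T.erase t : Finset (Fin r → K)) : Set (Fin r → K)) := by
    intro t ht hmem
    have h1 := linearIndependent_iff_notMem_span.1 hTli0 ⟨t, ht⟩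
    apply h1
    refine span_mono ?_ hmem
    intro x hx
    have hx' := Finset.mem_erase.1 (Finset.mem_coe.1 hx)
    refine ⟨⟨x, hx'.2⟩, ⟨Set.mem_univ _, ?_⟩, rfl⟩
    intro h2
    exact hx'.1 (congrArg Subtype.val h2)
  let X : (Fin r → K) → Finset (Fin r → K) := fun t =>
    S.filter (fun s => s ∈ span K ((T.erase t : Finset (Fin r → K)) : Set (Fin r → K)))
  have hX : ∀ t ∈ T, IsCopoint S (X t) := by
    intro t ht
    have hspan : span K ((X t : Finset (Fin r → K)) : Set (Fin r → K)) =
        span K ((T.erase t : Finset (Fin r → K)) : Set (Fin r → K)) := by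
      apply le_antisymm
      · rw [span_le]
        intro x hx
        exact (Finset.mem_filter.1 (Finset.mem_coe.1 hx)).2
      · apply span_mono
        intro x hx
        have hx' := Finset.mem_coe.1 hx
        refine Finset.mem_coe.2 (Finset.mem_filter.2 ⟨?_, subset_span hx⟩)
        exact Finset.mem_coe.1 (hTS0 (Finset.mem_coe.2 (Finset.mem_of_mem_erase hx')))
    refine ⟨Finset.filter_subset _ _, ?_, ?_⟩
    · intro s hs hs'
      rw [hspan] at hs'
      exact Finset.mem_filter.2 ⟨hs, hs'⟩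
    · rw [hspan, hcardT]
      have h2 : LinearIndependent K (Subtype.val :
          ((T.erase t : Finset (Fin r → K)) : Set (Fin r → K)) → (Fin r → K)) :=
        LinearIndepOn.mono (v := id) hTli0 (by exact_mod_cast Finset.erase_subset t T)
      have h3 := finrank_span_finset_eq_card h2
      rw [h3]
      exact Finset.card_erase_add_one ht
  have hTne : T.Nonempty := by
    rw [Finset.nonempty_iff_ne_empty]
    rintro rfl
    obtain ⟨s, hs⟩ := hne
    have h1 : s ∈ span K (S : Set (Fin r → K)) := subset_span hs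
    rw [← hTspan0, Finset.coe_empty, span_empty, mem_bot] at h1
    exact hzero (h1 ▸ hs)
  have hcover : S ⊆ T.biUnion (fun t => S \ X t) := by
    intro s hs
    by_contra hcon
    apply hzero
    have hall : ∀ t ∈ T, s ∈ span K ((T.erase t : Finset (Fin r → K)) : Set (Fin r → K)) := by
      intro t ht
      by_contra hnot
      apply hcon
      refine Finset.mem_biUnion.2 ⟨t, ht, Finset.mem_sdiff.2 ⟨hs, ?_⟩⟩
      intro h1
      exact hnot (Finset.mem_filter.1 h1).2
    have h1 : s ∈ span K ((T : Finset (Fin r → K)) : Set (Fin r → K)) := by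
      rw [hTspan0]
      exact subset_span hs
    obtain ⟨c, -, hc⟩ := Submodule.mem_span_finset.1 h1
    have h2 : ∀ t ∈ T, c t = 0 := by
      intro t ht
      obtain ⟨φ, hφ1, hφ2⟩ := Submodule.exists_le_ker_of_notMem (hdual t ht)
      have h3 : φ s = 0 := hφ2 (hall t ht)
      rw [← hc, map_sum, Finset.sum_eq_single t] at h3
      · rw [map_smul, smul_eq_mul] at h3
        exact (mul_eq_zero.1 h3).resolve_right hφ1
      · intro b hb hbt
        have : φ b = 0 := hφ2 (subset_span (Finset.mem_coe.2 (Finset.mem_erase.2 ⟨hbt, hb⟩)))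
        rw [map_smul, this, smul_zero]
      · intro h4
        exact absurd ht h4
    have h3 : s = 0 := by
      rw [← hc]
      exact Finset.sum_eq_zero fun t ht => by rw [h2 t ht, zero_smul]
    exact h3 ▸ hs
  obtain ⟨t, ht, hmax⟩ := Finset.exists_max_image T (fun t => (S \ X t).card) hTne
  refine ⟨X t, hX t ht, ?_⟩
  have h5 : ((S : Set (Fin r → K)) \ (X t : Set (Fin r → K))).ncard = (S \ X t).card := by
    rw [← Finset.coe_sdiff, Set.ncard_coe_finset]
  rw [h5, hcardT]
  exact (Finset.card_le_card hcover).trans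
    (Finset.card_biUnion_le_card_mul _ _ _ (fun t' ht' => hmax t' ht'))

/-- Whittle's statement for tangential `k`-blocks over a field of order `q` whose rank `n` is at
most `k + 3`, or which have more than `n (q ^ k - 1) q ^ (n - k - 3)` points; in addition, every
copoint of a tangential `k`-block of rank at most `k + 3`, and every copoint of an arbitrary
tangential `k`-block with more than `(q ^ k - 1) q ^ (n - k - 3)` points off it, has a spanning
complement. -/
theorem result (K : Type) [Field K] [Fintype K] (r k : ℕ) (S : Finset (Fin r → K))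
    (hzero : (0 : Fin r → K) ∉ S)
    (hsimple : ∀ s ∈ S, ∀ t ∈ S, ∀ c : K, s = c • t → s = t)
    (hblock : ∀ f : (Fin r → K) →ₗ[K] (Fin k → K), ∃ s ∈ S, f s = 0)
    (htang : ∀ F : Finset (Fin r → K), F ⊆ S → F.Nonempty →
      (∀ s ∈ S, s ∈ span K (F : Set (Fin r → K)) → s ∈ F) →
      ∃ f : (Fin r → K) →ₗ[K] (Fin k → K),
        (∀ x ∈ F, f x = 0) ∧ ∀ s ∈ S, s ∉ F → f s ≠ 0)
    (n : ℕ) (hn : n = finrank K (span K (S : Set (Fin r → K)))) :
    ((n ≤ k + 3 ∨ n * ((Fintype.card K ^ k - 1) * Fintype.card K ^ (n - k - 3)) < S.card) →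
      ∃ X : Finset (Fin r → K), IsCopoint S X ∧
        span K ((S : Set (Fin r → K)) \ (X : Set (Fin r → K))) =
          span K (S : Set (Fin r → K))) ∧
    ∀ X : Finset (Fin r → K), IsCopoint S X →
      (n ≤ k + 3 ∨ (Fintype.card K ^ k - 1) * Fintype.card K ^ (n - k - 3) <
        ((S : Set (Fin r → K)) \ (X : Set (Fin r → K))).ncard) →
      span K ((S : Set (Fin r → K)) \ (X : Set (Fin r → K))) =
        span K (S : Set (Fin r → K)) := by
  have hmain : ∀ X : Finset (Fin r → K), IsCopoint S X →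
      (n ≤ k + 3 ∨ (Fintype.card K ^ k - 1) * Fintype.card K ^ (n - k - 3) <
        ((S : Set (Fin r → K)) \ (X : Set (Fin r → K))).ncard) →
      span K ((S : Set (Fin r → K)) \ (X : Set (Fin r → K))) =
        span K (S : Set (Fin r → K)) := by
    rintro X ⟨hX1, hX2, hX3⟩ hX4
    by_contra hcon
    obtain ⟨h1, h2⟩ := nonspanning hsimple hblock htang X hX1 hX2 hX3 hcon
    rw [← hn] at h1 h2
    rcases hX4 with h3 | h3 <;> omega
  refine ⟨?_, hmain⟩
  intro h
  obtain ⟨s, hs, -⟩ := hblock 0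
  obtain ⟨X, hX, hXc⟩ := exists_big_copoint hzero ⟨s, hs⟩
  refine ⟨X, hX, hmain X hX ?_⟩
  rcases h with h | h
  · exact Or.inl h
  · right
    rw [← hn] at hXc
    exact lt_of_mul_lt_mul_left (lt_of_lt_of_le h hXc) (Nat.zero_le n)

end Pool.Agent.Results.MP_6f9e99_co.Main
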